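import Pool.Agent.Helper98.LM.All
import Pool.Agent.Helper63.LK.M_MR3
import Pool.Agent.Helper33.LM.M_FNA2
import Pool.Agent.Helper33.LM.M_FNB2
import Pool.Agent.Helper33.LM.M_UP

/-!
# Project LM: assembly of the form without small prime factors
-/

set_option autoImplicit false

noncomputable section

namespace Pool.Agent.Helper33.LM

open Pool.Agent Finset
open Pool.Agent.Helper98.LM hiding Good

theorem pFNA2 : StFNA2 := hFNA2 (Helper98.LM.hCHA pMO1 pMO2 pVLB) hEX2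

theorem pFNB2 : StFNB2 := hFNB2 (Helper55.LM.hCHB pMO1 pMO2 pVLB) hEX2

theorem pUP : StUP := hUP pMO1 (Helper63.LK.hMR3 Helper48.BK.tSW)

private lemma rough_mono {κ κ' : ℝ} (h : κ ≤ κ') {n k : ℕ} (hn : 1 ≤ n) (hr : Rough κ' n k) : Rough κ n k := by
  intro q hq hd
  have h1 : (1 : ℝ) ≤ n := by exact_mod_cast hn
  exact (Real.rpow_le_rpow_of_exponent_le h1 h).trans (hr q hq hd)

/-- The exact order of the least `k` without small prime factors, for almost all `n`. -/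
theorem order (ε : ℝ) (hε : 0 < ε) : ∃ κ₀ : ℝ, 0 < κ₀ ∧ ∀ κ : ℝ, 0 < κ → κ ≤ κ₀ → ∃ c C : ℝ, 0 < c ∧ 0 < C ∧
    ∃ N₀ : ℕ, ∀ N : ℕ, N₀ ≤ N → ∀ E : Finset ℕ, E ⊆ Icc 1 N →
      (∀ n ∈ E, ¬ ((∃ k : ℕ, 1 ≤ k ∧ 2 * k ≤ n ∧ (k : ℝ) ≤ C * Real.log n ∧ Rough κ n k ∧
        (ArithmeticFunction.cardFactors (k ^ 2 + k * (n - k) + (n - k) ^ 2) : ℝ) ≤ 2 / κ) ∧
        ∀ k : ℕ, 1 ≤ k → (k : ℝ) ≤ c * Real.log n → ¬ Rough κ n k)) → (E.card : ℝ) ≤ ε * N := by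
  classical
  obtain ⟨C, κ₀, hC, hκ₀, N₁, h1⟩ := pFNA2 (ε / 2) (by linarith)
  refine ⟨κ₀, hκ₀, fun κ hκ hκκ => ?_⟩
  obtain ⟨c, hc, N₂, h2⟩ := pUP (ε / 2) κ (by linarith) hκ
  refine ⟨c, C, hc, hC, max N₁ N₂, fun N hN E hE hbad => ?_⟩
  have a1 := h1 N ((le_max_left _ _).trans hN)
  have a2 := h2 N ((le_max_right _ _).trans hN)
  have hsub : E ⊆ (Icc 1 N).filter (fun n => ¬ Good C κ₀ n) ∪
      (Icc 1 N).filter (fun n : ℕ => ∃ k : ℕ, 1 ≤ k ∧ (k : ℝ) ≤ c * Real.log n ∧ Rough κ n k) := by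
    intro n hn
    have hnI := hE hn
    have hn1 : 1 ≤ n := (mem_Icc.1 hnI).1
    rw [mem_union, mem_filter, mem_filter]
    by_cases hg : Good C κ₀ n
    · right
      refine ⟨hnI, ?_⟩
      by_contra hno
      apply hbad n hn
      obtain ⟨k, k1, k2, k3, k4, k5⟩ := hg
      have k6 : Rough κ n k := rough_mono hκκ hn1 k4
      refine ⟨⟨k, k1, k2, k3, k6, k5.trans ?_⟩, fun k' h1 h2 h3 => hno ⟨k', h1, h2, h3⟩⟩
      exact div_le_div_of_nonneg_left (by norm_num) hκ hκκ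
    · exact Or.inl ⟨hnI, hg⟩
  have h3 : E.card ≤ ((Icc 1 N).filter (fun n => ¬ Good C κ₀ n)).card +
      ((Icc 1 N).filter (fun n : ℕ => ∃ k : ℕ, 1 ≤ k ∧ (k : ℝ) ≤ c * Real.log n ∧ Rough κ n k)).card :=
    (card_le_card hsub).trans (card_union_le _ _)
  have h4 : (E.card : ℝ) ≤ (((Icc 1 N).filter (fun n => ¬ Good C κ₀ n)).card : ℝ) +
      (((Icc 1 N).filter (fun n : ℕ => ∃ k : ℕ, 1 ≤ k ∧ (k : ℝ) ≤ c * Real.log n ∧ Rough κ n k)).card : ℝ) := by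
    exact_mod_cast h3
  linarith

end Pool.Agent.Helper33.LM
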