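import Pool.Agent.Helper33.LM.M_UP
import Pool.Agent.Helper30.LK.St

/-!
# Project LM, module UP2 (as UP, explicit): for almost all `n` there is no `k ≤ c log n` without small prime factors (first moment)
-/

set_option autoImplicit false

noncomputable section

namespace Pool.Agent.Helper33.LM

open Finset Filter Asymptotics
open Pool.Agent.Helper98.LM hiding Good
open Pool.Agent.Helper30.LK (StMR3)

private lemma ev_real (c ε : ℝ) (hε : 0 < ε) : ∀ᶠ x : ℝ in atTop, x ^ (1 / 2 : ℝ) + c * Real.log x * x ^ (1 / 2 : ℝ) ≤ ε * x := by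
  have a := (isLittleO_log_rpow_atTop (r := 1 / 2) (by norm_num)).const_mul_left c
  have b : (fun _ : ℝ => (1 : ℝ)) =o[atTop] fun x : ℝ => x ^ (1 / 2 : ℝ) :=
    isLittleO_const_left.2 (Or.inr (tendsto_norm_atTop_atTop.comp (tendsto_rpow_atTop (by norm_num))))
  have h := b.add a
  have h2 := h.def hε
  filter_upwards [h2, eventually_gt_atTop (0 : ℝ)] with x hx h0
  have hp : 0 ≤ x ^ (1 / 2 : ℝ) := Real.rpow_nonneg h0.le _
  rw [Real.norm_eq_abs, Real.norm_eq_abs, abs_of_nonneg hp] at hx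
  have h3 := (le_abs_self _).trans hx
  have h4 : x ^ (1 / 2 : ℝ) * x ^ (1 / 2 : ℝ) = x := by
    rw [← Real.rpow_add h0]; norm_num
  have h5 := mul_le_mul_of_nonneg_right h3 hp
  have h6 : ε * x ^ (1 / 2 : ℝ) * x ^ (1 / 2 : ℝ) = ε * x := by rw [mul_assoc, h4]
  rw [h6] at h5
  linarith

private lemma ev_log (c : ℝ) : ∀ᶠ x : ℝ in atTop, c * Real.log x ≤ 1 / 2 * x ^ (1 / 2 : ℝ) := by
  have a := (isLittleO_log_rpow_atTop (r := 1 / 2) (by norm_num)).const_mul_left c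
  have h2 := a.def (c := 1 / 2) (by norm_num)
  filter_upwards [h2, eventually_gt_atTop (0 : ℝ)] with x hx h0
  have hp : 0 ≤ x ^ (1 / 2 : ℝ) := Real.rpow_nonneg h0.le _
  rw [Real.norm_eq_abs, Real.norm_eq_abs, abs_of_nonneg hp] at hx
  exact (le_abs_self _).trans hx

open Classical in
/-- the proportion is at most of order `c` -/
def StUP2 : Prop := ∀ κ : ℝ, 0 < κ → ∃ c₂ : ℝ, 0 < c₂ ∧ ∀ c : ℝ, 0 < c → ∃ N₀ : ℕ, ∀ N : ℕ, N₀ ≤ N →
  (((Icc 1 N).filter (fun n : ℕ => ∃ k : ℕ, 1 ≤ k ∧ (k : ℝ) ≤ c * Real.log n ∧ Rough κ n k)).card : ℝ) ≤ c₂ * c * N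

/-- UP2 -/
theorem hUP2 (h1 : StMO1) (hM : StMR3) : StUP2 := by
  classical
  intro κ hκ
  obtain ⟨B, p, hp7, H⟩ := h1 1 one_pos le_rfl
  obtain ⟨J₀, hJ₀, H⟩ := H p 1 le_rfl le_rfl (fun l hl hd => by
    have := Nat.dvd_one.1 hd
    rw [this] at hl
    exact absurd hl Nat.not_prime_one)
  obtain ⟨C₀, hC₀, hV⟩ := hVUB hM
  obtain ⟨C, hC⟩ : ∃ C : ℝ, C = C₀ * Real.exp (2 * p) := ⟨_, rfl⟩
  have hC0 : 0 < C := by rw [hC]; positivity
  obtain ⟨δ, hδ⟩ : ∃ δ : ℝ, δ = min (κ / 4) (1 / (2 * B + 2)) := ⟨_, rfl⟩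
  have hδ0 : 0 < δ := by
    rw [hδ]
    exact lt_min (by linarith) (by positivity)
  have hδκ : 4 * δ ≤ κ := by
    have : δ ≤ κ / 4 := by rw [hδ]; exact min_le_left _ _
    linarith
  have hδB : δ * B ≤ 1 / 2 := by
    have h2 : δ ≤ 1 / (2 * B + 2) := by rw [hδ]; exact min_le_right _ _
    rw [le_div_iff₀ (by positivity)] at h2
    linarith
  refine ⟨16 * C / δ, by positivity, ?_⟩
  intro c hc0
  obtain ⟨ε, hεd⟩ : ∃ ε : ℝ, ε = 16 * C / δ * c := ⟨_, rfl⟩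
  rw [← hεd]
  have hε : 0 < ε := by rw [hεd]; positivity
  have hcC : 8 * c * C / δ = ε / 2 := by
    rw [hεd]
    ring
  have E1 : ∀ᶠ N : ℕ in atTop, (N : ℝ) ^ (1 / 2 : ℝ) + c * Real.log N * (N : ℝ) ^ (1 / 2 : ℝ) ≤ ε / 2 * N :=
    tendsto_natCast_atTop_atTop.eventually (ev_real c (ε / 2) (by linarith))
  have E2 : ∀ᶠ N : ℕ in atTop, (3 : ℝ) ≤ (N : ℝ) ^ (δ / 2) :=
    tendsto_natCast_atTop_atTop.eventually
      ((tendsto_rpow_atTop (by linarith : 0 < δ / 2)).eventually_ge_atTop 3)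
  have E3 : ∀ᶠ N : ℕ in atTop, ((J₀ : ℝ) + 1) / c ≤ Real.log N :=
    (Real.tendsto_log_atTop.comp tendsto_natCast_atTop_atTop).eventually_ge_atTop _
  have E4 : ∀ᶠ N : ℕ in atTop, c * Real.log N ≤ 1 / 2 * (N : ℝ) ^ (1 / 2 : ℝ) :=
    tendsto_natCast_atTop_atTop.eventually (ev_log c)
  obtain ⟨N₀, hN₀⟩ := eventually_atTop.1 (E1.and (E2.and (E3.and (E4.and (eventually_ge_atTop 2)))))
  refine ⟨N₀, fun N hN => ?_⟩
  obtain ⟨e1, e2, e3, e0, e4⟩ := hN₀ N hN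
  have hN2 : (2 : ℝ) ≤ N := by exact_mod_cast e4
  have hN0 : (0 : ℝ) < N := by linarith
  have hlN : 0 < Real.log N := Real.log_pos (by linarith)
  rw [div_le_iff₀ hc0] at e3
  obtain ⟨J, hJ⟩ : ∃ J : ℕ, J = ⌊c * Real.log N⌋₊ := ⟨_, rfl⟩
  have hcl : 0 ≤ c * Real.log N := by positivity
  have hJ1 : (J : ℝ) ≤ c * Real.log N := by rw [hJ]; exact Nat.floor_le hcl
  have hJJ : J₀ ≤ J := by
    rw [hJ]
    exact Nat.le_floor (by linarith)
  obtain ⟨w, hw⟩ : ∃ w : ℕ, w = ⌊(N : ℝ) ^ δ⌋₊ := ⟨_, rfl⟩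
  have hwN : (w : ℝ) ≤ (N : ℝ) ^ δ := by rw [hw]; exact Nat.floor_le (Real.rpow_nonneg hN0.le _)
  have hdd : (N : ℝ) ^ δ = (N : ℝ) ^ (δ / 2) * (N : ℝ) ^ (δ / 2) := by
    rw [← Real.rpow_add hN0]
    congr 1
    ring
  have hwN2 : (N : ℝ) ^ (δ / 2) ≤ w := by
    have h2 := Nat.lt_floor_add_one ((N : ℝ) ^ δ)
    rw [← hw] at h2
    nlinarith
  have hw3 : 3 ≤ w := by
    have : (3 : ℝ) ≤ w := e2.trans hwN2
    exact_mod_cast this
  have hlw : δ / 2 * Real.log N ≤ Real.log w := by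
    rw [← Real.log_rpow hN0]
    exact Real.log_le_log (Real.rpow_pos_of_pos hN0 _) hwN2
  -- the first moment
  have F := (H J 0 0 w N hJJ (Nat.zero_le _) (by omega)).2
  have hVw : VV p w ≤ 2 * C / (δ * Real.log N) := by
    have h2 := hV p w hw3
    rw [← hC] at h2
    refine h2.trans ?_
    rw [div_le_div_iff₀ (by linarith [mul_pos (half_pos hδ0) hlN]) (by positivity)]
    have h3 := mul_le_mul_of_nonneg_left hlw (mul_nonneg (by norm_num : (0 : ℝ) ≤ 2) hC0.le)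
    linarith
  have hwB : (w : ℝ) ^ B ≤ (N : ℝ) ^ (1 / 2 : ℝ) := by
    have h2 : (w : ℝ) ^ B ≤ ((N : ℝ) ^ δ) ^ B := pow_le_pow_left₀ (Nat.cast_nonneg _) hwN B
    have h3 : ((N : ℝ) ^ δ) ^ B = (N : ℝ) ^ (δ * B) := by
      rw [← Real.rpow_natCast, ← Real.rpow_mul hN0.le]
    rw [h3] at h2
    exact h2.trans (Real.rpow_le_rpow_of_exponent_le (by linarith) hδB)
  have G1 : 4 * ((J : ℝ) * N * VV p w) ≤ ε / 2 * N := by
    have h2 : (J : ℝ) * N ≤ c * Real.log N * N := mul_le_mul_of_nonneg_right hJ1 hN0.le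
    have h3 : (J : ℝ) * N * VV p w ≤ c * Real.log N * N * (2 * C / (δ * Real.log N)) := by
      refine (mul_le_mul_of_nonneg_left hVw (by positivity)).trans ?_
      exact mul_le_mul_of_nonneg_right h2 (by positivity)
    have h4 : 4 * (c * Real.log N * N * (2 * C / (δ * Real.log N))) = 8 * c * C / δ * N := by
      field_simp
      ring
    rw [hcC] at h4
    linarith
  have G2 : (J : ℝ) * (w : ℝ) ^ B ≤ c * Real.log N * (N : ℝ) ^ (1 / 2 : ℝ) :=
    mul_le_mul hJ1 hwB (by positivity) hcl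
  obtain ⟨A, hA⟩ : ∃ A : Finset ℕ, A = (Icc 1 N).filter (fun m : ℕ => 0 < XX p w 1 0 0 J m) := ⟨_, rfl⟩
  have hcA : (A.card : ℝ) ≤ ∑ m ∈ Icc 1 N, (XX p w 1 0 0 J m : ℝ) := by
    rw [hA, Finset.card_filter, Nat.cast_sum]
    refine Finset.sum_le_sum fun m _ => ?_
    split_ifs with h
    · exact_mod_cast h
    · exact_mod_cast Nat.zero_le _
  have hsub : (Icc 1 N).filter (fun n : ℕ => ∃ k : ℕ, 1 ≤ k ∧ (k : ℝ) ≤ c * Real.log n ∧ Rough κ n k) ⊆ Icc 1 (Nat.sqrt N) ∪ A := by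
    intro n hn
    rw [mem_filter, mem_Icc] at hn
    obtain ⟨⟨hn1, hnN⟩, k, hk1, hk3, hk4⟩ := hn
    rw [mem_union]
    by_cases hs : n ≤ Nat.sqrt N
    · exact Or.inl (mem_Icc.2 ⟨hn1, hs⟩)
    · right
      have hNn : N < n * n := Nat.sqrt_lt.1 (not_le.1 hs)
      have hn0 : (0 : ℝ) < n := by exact_mod_cast hn1
      have hnN' : (n : ℝ) ≤ N := by exact_mod_cast hnN
      rw [hA, mem_filter]
      refine ⟨mem_Icc.2 ⟨hn1, hnN⟩, ?_⟩
      unfold XX
      rw [Finset.card_pos]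
      refine ⟨k, mem_filter.2 ⟨mem_Icc.2 ⟨hk1, ?_⟩, ?_⟩⟩
      · rw [hJ]
        apply Nat.le_floor
        exact hk3.trans (mul_le_mul_of_nonneg_left (Real.log_le_log hn0 hnN') hc0.le)
      · intro l hl hd
        unfold QQ at hl
        rw [mem_filter, mem_Ioc] at hl
        obtain ⟨⟨l1, l2⟩, l3⟩ := hl
        have hkn : k ≤ n := by
          have g1 : (N : ℝ) ^ (1 / 2 : ℝ) ≤ n := by
            rw [← Real.sqrt_eq_rpow]
            refine Real.sqrt_le_iff.2 ⟨hn0.le, ?_⟩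
            have : (N : ℝ) ≤ ((n * n : ℕ) : ℝ) := by exact_mod_cast hNn.le
            push_cast at this
            nlinarith
          have g2 : c * Real.log n ≤ c * Real.log N :=
            mul_le_mul_of_nonneg_left (Real.log_le_log hn0 hnN') hc0.le
          have g3 : (k : ℝ) ≤ n := by
            have g4 : 0 ≤ (N : ℝ) ^ (1 / 2 : ℝ) := Real.rpow_nonneg hN0.le _
            linarith
          exact_mod_cast g3
        have e5 : fz (((0 : ℕ) : ℤ) + ((1 : ℕ) : ℤ) * (n : ℤ)) (((0 : ℕ) : ℤ) + ((1 : ℕ) : ℤ) * (k : ℤ)) =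
            ((k ^ 2 + k * (n - k) + (n - k) ^ 2 : ℕ) : ℤ) := by
          unfold fz
          push_cast [Nat.cast_sub hkn]
          ring
        rw [e5] at hd
        have hd' : l ∣ k ^ 2 + k * (n - k) + (n - k) ^ 2 := by exact_mod_cast hd
        have h5 := hk4 l l3 hd'
        have h6 : (l : ℝ) ≤ (N : ℝ) ^ δ := (Nat.cast_le.2 l2).trans hwN
        have h7 : (N : ℝ) ^ (κ / 2) ≤ (n : ℝ) ^ κ := by
          have h8 : (N : ℝ) ≤ (n : ℝ) ^ (2 : ℝ) := by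
            have : (N : ℝ) ≤ ((n * n : ℕ) : ℝ) := by exact_mod_cast hNn.le
            rw [Real.rpow_two]
            push_cast at this
            nlinarith
          have h9 : (n : ℝ) ^ κ = ((n : ℝ) ^ (2 : ℝ)) ^ (κ / 2) := by
            rw [← Real.rpow_mul hn0.le]
            congr 1
            ring
          rw [h9]
          exact Real.rpow_le_rpow hN0.le h8 (by linarith)
        have h10 : (N : ℝ) ^ δ < (N : ℝ) ^ (κ / 2) :=
          Real.rpow_lt_rpow_of_exponent_lt (by linarith) (by linarith)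
        linarith
  have hfin : (((Icc 1 N).filter (fun n : ℕ => ∃ k : ℕ, 1 ≤ k ∧ (k : ℝ) ≤ c * Real.log n ∧ Rough κ n k)).card : ℝ) ≤ (Nat.sqrt N : ℝ) + A.card := by
    have h2 := card_le_card hsub
    have h3 := card_union_le (Icc 1 (Nat.sqrt N)) A
    have h4 : (Icc 1 (Nat.sqrt N)).card = Nat.sqrt N := by simp
    rw [h4] at h3
    exact_mod_cast h2.trans h3
  have hsq : (Nat.sqrt N : ℝ) ≤ (N : ℝ) ^ (1 / 2 : ℝ) := by
    rw [← Real.sqrt_eq_rpow]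
    apply Real.le_sqrt_of_sq_le
    have := Nat.sqrt_le' N
    exact_mod_cast this
  linarith

end Pool.Agent.Helper33.LM
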