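import Pool.Agent.Helper33.LM.All2
import Pool.Agent.Helper33.LM.M_FNB3
import Pool.Agent.Helper33.LM.M_UP2

/-!
# Project LM: the proportion of the `n` with a rough value for some `k ≤ c log n`
-/

set_option autoImplicit false

noncomputable section

namespace Pool.Agent.Helper33.LM

open Pool.Agent Finset
open Pool.Agent.Helper98.LM hiding Good

theorem pFNB3 : StFNB3 := hFNB3 (hCHB2 pMO1 pMO2 pVLB) hEX2

theorem pUP2 : StUP2 := hUP2 pMO1 (Helper63.LK.hMR3 Helper48.BK.tSW)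

open Classical in
/-- The proportion has exact order `c`. -/
theorem propOrder : ∃ κ₀ c₁ : ℝ, 0 < κ₀ ∧ 0 < c₁ ∧ ∀ κ : ℝ, 0 < κ → κ ≤ κ₀ → ∃ c₂ : ℝ, 0 < c₂ ∧
    ∀ c : ℝ, 0 < c → c ≤ 1 → ∃ N₀ : ℕ, ∀ N : ℕ, N₀ ≤ N →
      c₁ * c * N ≤ (((Icc 1 N).filter (fun n => Good c κ n)).card : ℝ) ∧
      (((Icc 1 N).filter (fun n => Good c κ n)).card : ℝ) ≤ c₂ * c * N := by
  obtain ⟨κ₀, c₁, hκ₀, hc₁, h1⟩ := pFNB3
  refine ⟨κ₀, c₁, hκ₀, hc₁, fun κ hκ hκκ => ?_⟩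
  obtain ⟨c₂, hc₂, h2⟩ := pUP2 κ hκ
  refine ⟨c₂, hc₂, fun c hc hc1 => ?_⟩
  obtain ⟨N₁, h1⟩ := h1 c hc hc1
  obtain ⟨N₂, h2⟩ := h2 c hc
  refine ⟨max N₁ N₂, fun N hN => ⟨?_, ?_⟩⟩
  · refine (h1 N ((le_max_left _ _).trans hN)).trans ?_
    have : (Icc 1 N).filter (fun n => Good c κ₀ n) ⊆ (Icc 1 N).filter (fun n => Good c κ n) := by
      intro n hn
      rw [mem_filter] at hn ⊢
      refine ⟨hn.1, ?_⟩
      obtain ⟨k, k1, k2, k3, k4, k5⟩ := hn.2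
      refine good_mk hκ k1 k2 k3 fun q hq hd => ?_
      have hn1 : (1 : ℝ) ≤ n := by exact_mod_cast (mem_Icc.1 hn.1).1
      exact (Real.rpow_le_rpow_of_exponent_le hn1 hκκ).trans (k4 q hq hd)
    exact_mod_cast card_le_card this
  · refine le_trans ?_ (h2 N ((le_max_right _ _).trans hN))
    have : (Icc 1 N).filter (fun n => Good c κ n) ⊆
        (Icc 1 N).filter (fun n : ℕ => ∃ k : ℕ, 1 ≤ k ∧ (k : ℝ) ≤ c * Real.log n ∧ Rough κ n k) := by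
      intro n hn
      rw [mem_filter] at hn ⊢
      refine ⟨hn.1, ?_⟩
      obtain ⟨k, k1, k2, k3, k4, k5⟩ := hn.2
      exact ⟨k, k1, k3, k4⟩
    exact_mod_cast card_le_card this

end Pool.Agent.Helper33.LM
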