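import Pool.Agent.Helper98.LM.St

/-! Project LM, module EX2 (from `Helper84/LM/M_EX.lean`): from a positive count to a value without small prime factors. -/

set_option autoImplicit false

noncomputable section

namespace Pool.Agent.Helper33.LM

open Finset
open Pool.Agent.Helper98.LM hiding Good

private lemma fz_cast {n k : ℕ} (h : k ≤ n) :
    ((k ^ 2 + k * (n - k) + (n - k) ^ 2 : ℕ) : ℤ) = fz n k := by
  unfold fz
  push_cast [Nat.cast_sub h]
  ring

private lemma f_le {n k : ℕ} (h : k ≤ n) : k ^ 2 + k * (n - k) + (n - k) ^ 2 ≤ n ^ 2 := by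
  obtain ⟨d, rfl⟩ := Nat.exists_eq_add_of_le h
  rw [Nat.add_sub_cancel_left]
  nlinarith

/-- Some integer `1 ≤ k ≤ C log n`, `k ≤ n / 2`, is such that every prime factor of `k ^ 2 + k (n - k) + (n - k) ^ 2` is at least
`n ^ κ`; in particular there are at most `2 / κ` prime factors, counted with multiplicity. -/
def Good (C κ : ℝ) (n : ℕ) : Prop := ∃ k : ℕ, 1 ≤ k ∧ 2 * k ≤ n ∧ (k : ℝ) ≤ C * Real.log n ∧
  (∀ q : ℕ, q.Prime → q ∣ k ^ 2 + k * (n - k) + (n - k) ^ 2 → (n : ℝ) ^ κ ≤ q) ∧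
  (ArithmeticFunction.cardFactors (k ^ 2 + k * (n - k) + (n - k) ^ 2) : ℝ) ≤ 2 / κ

private lemma pow_le_list (y : ℝ) (hy : 0 ≤ y) (l : List ℕ) (h : ∀ q ∈ l, y ≤ (q : ℝ)) :
    y ^ l.length ≤ ((l.prod : ℕ) : ℝ) := by
  induction l with
  | nil => simp
  | cons a l ih =>
    rw [List.length_cons, List.prod_cons, pow_succ', Nat.cast_mul]
    exact mul_le_mul (h a (List.mem_cons_self)) (ih fun q hq => h q (List.mem_cons_of_mem a hq))
      (pow_nonneg hy _) (Nat.cast_nonneg a)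

/-- The bound for the number of the prime factors. -/
theorem good_mk {C κ : ℝ} {n k : ℕ} (hκ : 0 < κ) (h1 : 1 ≤ k) (h2 : 2 * k ≤ n) (h3 : (k : ℝ) ≤ C * Real.log n)
    (h4 : ∀ q : ℕ, q.Prime → q ∣ k ^ 2 + k * (n - k) + (n - k) ^ 2 → (n : ℝ) ^ κ ≤ q) : Good C κ n := by
  refine ⟨k, h1, h2, h3, h4, ?_⟩
  obtain ⟨f, hf⟩ : ∃ f : ℕ, f = k ^ 2 + k * (n - k) + (n - k) ^ 2 := ⟨_, rfl⟩
  have hfn : f ≤ n ^ 2 := by rw [hf]; exact f_le (by omega)
  have hf0 : 0 < f := by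
    have : 0 < k ^ 2 := by positivity
    omega
  rw [← hf] at h4 ⊢
  have hn2 : (2 : ℝ) ≤ n := by exact_mod_cast (by omega : 2 ≤ n)
  have hn0 : (0 : ℝ) < n := by linarith
  have hl : 0 < Real.log n := Real.log_pos (by linarith)
  have e1 := pow_le_list ((n : ℝ) ^ κ) (Real.rpow_nonneg hn0.le _) f.primeFactorsList fun q hq =>
    h4 q (Nat.prime_of_mem_primeFactorsList hq) (Nat.dvd_of_mem_primeFactorsList hq)
  rw [Nat.prod_primeFactorsList hf0.ne', ← ArithmeticFunction.cardFactors_apply] at e1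
  have e2 : (f : ℝ) ≤ (n : ℝ) ^ 2 := by exact_mod_cast hfn
  have e3 := Real.log_le_log (pow_pos (Real.rpow_pos_of_pos hn0 κ) _) (e1.trans e2)
  rw [Real.log_pow, Real.log_pow, Real.log_rpow hn0] at e3
  rw [le_div_iff₀ hκ]
  have e4 : ((ArithmeticFunction.cardFactors f : ℝ) * κ) * Real.log n ≤ 2 * Real.log n := by
    push_cast at e3
    linarith
  exact le_of_mul_le_mul_right e4 hl

/-- (EX2) -/
def StEX2 : Prop := ∀ p w J n : ℕ, 2 ≤ w → primorial p * (J + 1) ≤ n →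
  0 < XX p w (primorial p) (n % primorial p) (primorial p / Nat.gcd (primorial p) (n % primorial p)) J (n / primorial p) →
  ∃ k : ℕ, 1 ≤ k ∧ k ≤ primorial p * (J + 1) ∧
    ∀ q : ℕ, q.Prime → q ∣ k ^ 2 + k * (n - k) + (n - k) ^ 2 → w ≤ q

theorem hEX2 : StEX2 := by
  intro p w J n hw hn hX
  obtain ⟨P, hP⟩ : ∃ P : ℕ, P = primorial p := ⟨_, rfl⟩
  rw [← hP] at hn hX ⊢
  have hP0 : 0 < P := by rw [hP]; exact primorial_pos p
  have hsq : Squarefree P := by rw [hP]; exact squarefree_primorial p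
  obtain ⟨a, ha⟩ : ∃ a : ℕ, a = n % P := ⟨_, rfl⟩
  obtain ⟨g, hg⟩ : ∃ g : ℕ, g = Nat.gcd P a := ⟨_, rfl⟩
  obtain ⟨r, hr⟩ : ∃ r : ℕ, r = P / g := ⟨_, rfl⟩
  rw [← ha, ← hg, ← hr] at hX
  have hgP : g ∣ P := hg ▸ Nat.gcd_dvd_left P a
  have hga : g ∣ a := hg ▸ Nat.gcd_dvd_right P a
  have hg0 : 0 < g := Nat.pos_of_dvd_of_pos hgP hP0
  have hrg : r * g = P := by rw [hr]; exact Nat.div_mul_cancel hgP
  have hr0 : 0 < r := by
    rcases Nat.eq_zero_or_pos r with h | h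
    · rw [h, zero_mul] at hrg; omega
    · exact h
  have hrP : r ≤ P := by
    rw [← hrg]; exact Nat.le_mul_of_pos_right r hg0
  obtain ⟨j, hj⟩ := Finset.card_pos.1 hX
  obtain ⟨hj1, hj2⟩ := Finset.mem_filter.1 hj
  obtain ⟨hj3, hj4⟩ := Finset.mem_Icc.1 hj1
  have hnP : n = a + P * (n / P) := by rw [ha]; exact (Nat.mod_add_div n P).symm
  have hkP : r + P * j ≤ P * (J + 1) := by
    have h1 : P * j ≤ P * J := Nat.mul_le_mul_left P hj4
    rw [Nat.mul_add, Nat.mul_one]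
    omega
  obtain ⟨k, hk⟩ : ∃ k : ℕ, k = r + P * j := ⟨_, rfl⟩
  rw [← hk] at hkP
  have hkn : k ≤ n := hkP.trans hn
  have hk1 : 1 ≤ k := by rw [hk]; omega
  refine ⟨k, hk1, hkP, ?_⟩
  intro q hq hqf
  -- the prime divisor in the integers
  have hqz : (q : ℤ) ∣ fz n k := by
    rw [← fz_cast hkn]
    exact_mod_cast hqf
  have hqi : Prime (q : ℤ) := Nat.prime_iff_prime_int.1 hq
  have hfz : fz n k = (n : ℤ) ^ 2 - n * k + k ^ 2 := rfl
  by_contra hlt
  have hlt' : q < w := not_le.1 hlt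
  by_cases hqp : q ≤ p
  · have hqP : q ∣ P := by rw [hP]; exact (Nat.Prime.dvd_primorial_iff hq).2 hqp
    by_cases hqa : q ∣ a
    · have hqg : q ∣ g := by rw [hg]; exact Nat.dvd_gcd hqP hqa
      have hqr : ¬ q ∣ r := by
        intro h
        have h1 : q * q ∣ P := by rw [← hrg]; exact Nat.mul_dvd_mul h hqg
        exact hq.one_lt.ne' (Nat.isUnit_iff.1 (hsq q h1))
      have hqk : ¬ q ∣ k := by
        intro h
        apply hqr
        rw [hk] at h
        exact (Nat.dvd_add_left (hqP.mul_right j)).1 h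
      have hqn : q ∣ n := by
        rw [hnP]; exact dvd_add hqa (hqP.mul_right _)
      have hqn' : (q : ℤ) ∣ (n : ℤ) := by exact_mod_cast hqn
      have h1 : (q : ℤ) ∣ (k : ℤ) ^ 2 := by
        have e : (k : ℤ) ^ 2 = fz n k - (n : ℤ) * (n - k) := by rw [hfz]; ring
        rw [e]
        exact dvd_sub hqz (hqn'.mul_right _)
      have h2 := hqi.dvd_of_dvd_pow h1
      exact hqk (by exact_mod_cast h2)
    · have hqg : ¬ q ∣ g := fun h => hqa (h.trans hga)
      have hqr : q ∣ r := by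
        have h1 : q ∣ r * g := by rw [hrg]; exact hqP
        exact (hq.dvd_mul.1 h1).resolve_right hqg
      have hqk : q ∣ k := by rw [hk]; exact dvd_add hqr (hqP.mul_right j)
      have hqk' : (q : ℤ) ∣ (k : ℤ) := by exact_mod_cast hqk
      have h1 : (q : ℤ) ∣ (n : ℤ) ^ 2 := by
        have e : (n : ℤ) ^ 2 = fz n k - (k : ℤ) * (k - n) := by rw [hfz]; ring
        rw [e]
        exact dvd_sub hqz (hqk'.mul_right _)
      have h2 : q ∣ n := by exact_mod_cast hqi.dvd_of_dvd_pow h1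
      rw [hnP] at h2
      exact hqa ((Nat.dvd_add_left (hqP.mul_right _)).1 h2)
  · have hqQ : q ∈ QQ p w := by
      unfold QQ
      exact Finset.mem_filter.2 ⟨Finset.mem_Ioc.2 ⟨not_le.1 hqp, hlt'.le⟩, hq⟩
    apply hj2 q hqQ
    have e1 : ((a : ℤ) + P * ((n / P : ℕ) : ℤ)) = (n : ℤ) := by
      exact_mod_cast hnP.symm
    have e2 : ((r : ℤ) + P * j) = (k : ℤ) := by
      rw [hk]; push_cast; ring
    rw [e1, e2]
    exact hqz

end Pool.Agent.Helper33.LM
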